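import Mathlib
import Pool.Agent.MP_765488_mp.Finite

set_option autoImplicit false

namespace Pool.Agent.Results.MP_765488_mp.FiniteEquilibria

open Finset

/-- For every dimension `d ≥ 2` and every configuration of `N ≥ 1` positive point charges `q i`
at distinct points `a i` of Euclidean `d`-space, the Newtonian potential
(`∑ q i / |y - a i| ^ (d - 2)` for `d ≥ 3`, `-∑ q i * log |y - a i|` for `d = 2`) has only finitely
many critical points away from the charges. -/
theorem result (d N : ℕ) (hd : 2 ≤ d) (hN : 1 ≤ N)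
    (a : Fin N → EuclideanSpace ℝ (Fin d)) (ha : Function.Injective a)
    (q : Fin N → ℝ) (hq : ∀ i, 0 < q i) :
    {x : EuclideanSpace ℝ (Fin d) | (∀ i, x ≠ a i) ∧
      gradient (fun y : EuclideanSpace ℝ (Fin d) =>
        if d = 2 then -∑ i, q i * Real.log ‖y - a i‖
        else ∑ i, q i / ‖y - a i‖ ^ (d - 2)) x = 0}.Finite := by
  obtain ⟨e, rfl⟩ : ∃ e, d = e + 2 := ⟨d - 2, by omega⟩
  refine (Pool.Agent.MP_765488_mp.finite_solutions (e := e) a ha q (fun i => (hq i).ne')).subset ?_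
  rintro x ⟨hx, hgrad⟩
  have hn : ∀ i, 0 < ‖x - a i‖ := fun i => norm_pos_iff.2 (sub_ne_zero.2 (hx i))
  have hf : fderiv ℝ (fun y : EuclideanSpace ℝ (Fin (e + 2)) =>
        if e + 2 = 2 then -∑ i, q i * Real.log ‖y - a i‖
        else ∑ i, q i / ‖y - a i‖ ^ (e + 2 - 2)) x = 0 := by
    unfold gradient at hgrad
    exact (map_eq_zero_iff _ (LinearIsometryEquiv.injective _)).1 hgrad
  refine ⟨hx, fun k => ?_, ?_⟩
  · rcases Nat.eq_zero_or_pos e with rfl | he
    · have h1 : (fun y : EuclideanSpace ℝ (Fin (0 + 2)) =>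
          if 0 + 2 = 2 then -∑ i, q i * Real.log ‖y - a i‖
          else ∑ i, q i / ‖y - a i‖ ^ (0 + 2 - 2)) =
          fun y => ∑ i, (fun t : ℝ => -(q i * Real.log t)) ‖y - a i‖ := by
        funext y
        simp
      rw [h1] at hf
      have h2 := Pool.Agent.MP_765488_mp.coords_of_fderiv a x hx
        (fun i t => -(q i * Real.log t)) (fun i => -(q i * ‖x - a i‖⁻¹))
        (fun i => ((Real.hasDerivAt_log (hn i).ne').const_mul (q i)).neg) hf k
      rw [← neg_eq_zero, ← h2, ← sum_neg_distrib]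
      refine sum_congr rfl fun i _ => ?_
      ring
    · have h1 : (fun y : EuclideanSpace ℝ (Fin (e + 2)) =>
          if e + 2 = 2 then -∑ i, q i * Real.log ‖y - a i‖
          else ∑ i, q i / ‖y - a i‖ ^ (e + 2 - 2)) =
          fun y => ∑ i, (fun t : ℝ => q i * (t⁻¹) ^ e) ‖y - a i‖ := by
        funext y
        rw [if_neg (by omega)]
        simp [div_eq_mul_inv]
      rw [h1] at hf
      have h2 := Pool.Agent.MP_765488_mp.coords_of_fderiv a x hx
        (fun i t => q i * (t⁻¹) ^ e)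
        (fun i => q i * ((e : ℝ) * ‖x - a i‖⁻¹ ^ (e - 1) * (-(‖x - a i‖ ^ 2)⁻¹)))
        (fun i => ((hasDerivAt_inv (hn i).ne').fun_pow e).const_mul (q i)) hf k
      have he' : (e : ℝ) ≠ 0 := by exact_mod_cast he.ne'
      apply mul_left_cancel₀ (neg_ne_zero.2 he')
      rw [mul_zero, ← h2, mul_sum]
      refine sum_congr rfl fun i _ => ?_
      obtain ⟨e', rfl⟩ : ∃ e', e = e' + 1 := ⟨e - 1, by omega⟩
      simp only [Nat.add_sub_cancel, ← inv_pow]
      ring
  · have : Nonempty (Fin N) := ⟨⟨0, hN⟩⟩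
    exact (sum_pos (fun i _ => mul_pos (hq i) (pow_pos (inv_pos.2 (hn i)) _)) univ_nonempty).ne'

end Pool.Agent.Results.MP_765488_mp.FiniteEquilibria
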