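import Mathlib
import Pool.Agent.MP_765488_mp.h55.Place

set_option autoImplicit false

namespace Pool.Agent.Results.MP_765488_mp.SignedPositions

open Pool.Agent.MP_765488_mp.H55

/-- Fix `α > -1` and distinct points `a i` of Euclidean `d`-space. The Riesz potential
`∑ q i * |y - a i| ^ (-α)` (`-∑ q i * log |y - a i|` if `α = 0`) has only finitely many equilibria
for every nonzero vector of real charges `q` if and only if every subfamily of the points that
lies in an affine subspace of codimension at least two, or on a sphere and in a hyperplane, is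
affinely independent. -/
theorem result (d N : ℕ) (α : ℝ) (hα : -1 < α)
    (a : Fin N → EuclideanSpace ℝ (Fin d)) (ha : Function.Injective a) :
    (∀ q : Fin N → ℝ, q ≠ 0 →
      {x : EuclideanSpace ℝ (Fin d) | (∀ i, x ≠ a i) ∧
        gradient (fun y : EuclideanSpace ℝ (Fin d) =>
          if α = 0 then -∑ i, q i * Real.log ‖y - a i‖
          else ∑ i, q i * ‖y - a i‖ ^ (-α)) x = 0}.Finite) ↔
    ∀ S : Set (Fin N),
      (Module.finrank ℝ (vectorSpan ℝ (a '' S)) + 2 ≤ d ∨
        Module.finrank ℝ (vectorSpan ℝ (a '' S)) + 1 ≤ d ∧
          EuclideanGeometry.Cospherical (a '' S)) →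
      AffineIndependent ℝ fun i : S => a i := by
  simp only [eqs_eq]
  exact ⟨indep_of_finite, fun h q hq => finite_signed ha (by linarith) hq (geo_of_indep h)⟩

end Pool.Agent.Results.MP_765488_mp.SignedPositions
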